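import Pool.Agent.Y560.TG.Stm

/-!
Project TG, job FAM2 (helper914): configurations agreeing outside some classes.
-/

set_option autoImplicit false

namespace Pool.Agent.Y914.TG

open Set MeasureTheory
open Pool.Agent.Y560.TG
open Pool.Agent.H899R2.VP (St Adj PIso BF IsoOn idOn inv comp zipSet)
open Pool.Agent.H533R2.VO (RS lift put OS Ic RIso Dich VC BlkV S_FINAL)
open Pool.Agent.H566P (ar R2 v2 a0 a1 lt ac co mk LA LL MB lab sh prec pull S_ACC S_MSG)

section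

variable {R : R2} {y d : ℕ → ℕ} {V : ℕ → R2}

theorem lt_FX (S : Set ℕ) (a b : ℕ) : lt (FX R y d V S) a b ↔
    (if idx R y d a = idx R y d b then lt (pick R V S (idx R y d a)) a b else lt R a b) :=
  lt_mk _ _ _ _ _

theorem ac_FX (S : Set ℕ) (n a b : ℕ) : ac (FX R y d V S) n a b ↔
    (if idx R y d a = idx R y d b then ac (pick R V S (idx R y d a)) n a b else ac R n a b) :=
  ac_mk _ _ _ _ _ _

theorem co_FX (S : Set ℕ) (n a : ℕ) : co (FX R y d V S) n a ↔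
    co (pick R V S (idx R y d a)) n a :=
  co_mk _ _ _ _ _

theorem idx_iff (hdis : ∀ j k, j ≠ k → Disjoint (Ob R (y j) (d j)) (Ob R (y k) (d k))) (x k : ℕ) :
    idx R y d x = some k ↔ x ∈ Ob R (y k) (d k) := by
  unfold idx
  split_ifs with h
  · constructor
    · intro h1
      have h2 : h.choose = k := Option.some.inj h1
      rw [← h2]
      exact h.choose_spec
    · intro h1
      congr 1
      by_contra h2
      exact Set.disjoint_left.1 (hdis _ _ h2) h.choose_spec h1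
  · constructor
    · intro h1
      exact absurd h1 (by simp)
    · intro h1
      exact absurd ⟨k, h1⟩ h

theorem idx_none (hdis : ∀ j k, j ≠ k → Disjoint (Ob R (y j) (d j)) (Ob R (y k) (d k))) {x : ℕ}
    (h : ∀ k, x ∉ Ob R (y k) (d k)) : idx R y d x = none := by
  rw [Option.eq_none_iff_forall_ne_some]
  intro k hk
  exact h k ((idx_iff hdis x k).1 hk)

theorem lt_FX_ne (S : Set ℕ) {a b : ℕ} (h : idx R y d a ≠ idx R y d b) :
    lt (FX R y d V S) a b ↔ lt R a b := by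
  rw [lt_FX, if_neg h]

theorem ac_FX_ne (S : Set ℕ) {n a b : ℕ} (h : idx R y d a ≠ idx R y d b) :
    ac (FX R y d V S) n a b ↔ ac R n a b := by
  rw [ac_FX, if_neg h]

theorem lt_FX_none (S : Set ℕ) {a : ℕ} (b : ℕ) (h : idx R y d a = none) :
    lt (FX R y d V S) a b ↔ lt R a b := by
  rw [lt_FX, h]
  split_ifs with h1
  · rfl
  · rfl

theorem ac_FX_none (S : Set ℕ) (n : ℕ) {a : ℕ} (b : ℕ) (h : idx R y d a = none) :
    ac (FX R y d V S) n a b ↔ ac R n a b := by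
  rw [ac_FX, h]
  split_ifs with h1
  · rfl
  · rfl

/-- the classes are invariant -/
theorem inv_FX (hdis : ∀ j k, j ≠ k → Disjoint (Ob R (y j) (d j)) (Ob R (y k) (d k)))
    (hinv : ∀ n u v x z, ac R n x z → (x ∈ Ob R u v ↔ z ∈ Ob R u v)) (S : Set ℕ) {n x z : ℕ}
    (h : ac (FX R y d V S) n x z) : idx R y d x = idx R y d z := by
  by_contra hne
  rw [ac_FX_ne S hne] at h
  apply hne
  apply Option.ext
  intro k
  rw [idx_iff hdis, idx_iff hdis]
  exact hinv n _ _ x z h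

/-- the label over a point outside the classes -/
theorem lab_out (hdis : ∀ j k, j ≠ k → Disjoint (Ob R (y j) (d j)) (Ob R (y k) (d k)))
    (hinv : ∀ n u v x z, ac R n x z → (x ∈ Ob R u v ↔ z ∈ Ob R u v)) {Γ : Type} [Group Γ]
    {g : ℕ → Γ} (hg : Function.Surjective g) (S : Set ℕ) {t0 t : Γ → ℕ → ℕ} (h0 : LA g ⊤ R t0)
    (ht : LA g ⊤ (FX R y d V S) t) {a : ℕ} (ha : ∀ k, a ∉ Ob R (y k) (d k)) (γ : Γ) :
    t γ a = t0 γ a ∧ ∀ k, t0 γ a ∉ Ob R (y k) (d k) := by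
  obtain ⟨n, rfl⟩ := hg γ
  have h1 : ac R n a (t0 (g n) a) := (la_ac h0 _ _ _).2 rfl
  refine ⟨?_, fun k hk => ha k ((hinv n _ _ _ _ h1).2 hk)⟩
  rw [← la_ac ht, ac_FX_none S n _ (idx_none hdis ha)]
  exact h1

end

/-- FAM2 -/
theorem t_FAM2 (h1 : S_FAM1) (hG : S_GEO) : S_FAM2 := by
  intro Γ _ g hg α R y d V hFm S S' J hJ u v hv
  obtain ⟨hmb, hα, hout, hdis, hoff, hbf⟩ := hFm
  have hFm : Fm g α R y d V := ⟨hmb, hα, hout, hdis, hoff, hbf⟩
  obtain ⟨-, fmb, -, -, -, -⟩ := h1 Γ g hg α R y d V hFm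
  obtain ⟨-, -, hinv, -, g5, -, -, -, g9, -⟩ := hG Γ g hg R hmb
  obtain ⟨t0, h0, -⟩ := MB.la hmb
  obtain ⟨t, ht, -⟩ := MB.la (fmb S)
  obtain ⟨t', ht', -⟩ := MB.la (fmb S')
  -- agreement
  have agree : ∀ a b, (¬ ∃ j ∈ J, a ∈ Ob R (y j) (d j) ∧ b ∈ Ob R (y j) (d j)) →
      idx R y d a = idx R y d b → pick R V S (idx R y d a) = pick R V S' (idx R y d a) := by
    intro a b hab he
    rcases ho : idx R y d a with _ | k
    · rfl
    · apply hJ
      intro hk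
      apply hab
      refine ⟨k, hk, (idx_iff hdis a k).1 ho, (idx_iff hdis b k).1 ?_⟩
      rw [← he, ho]
  have alt : ∀ a b, (¬ ∃ j ∈ J, a ∈ Ob R (y j) (d j) ∧ b ∈ Ob R (y j) (d j)) →
      (lt (FX R y d V S) a b ↔ lt (FX R y d V S') a b) := by
    intro a b hab
    rw [lt_FX, lt_FX]
    split_ifs with he
    · rw [agree a b hab he]
    · rfl
  have aac : ∀ n a b, (¬ ∃ j ∈ J, a ∈ Ob R (y j) (d j) ∧ b ∈ Ob R (y j) (d j)) →
      (ac (FX R y d V S) n a b ↔ ac (FX R y d V S') n a b) := by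
    intro n a b hab
    rw [ac_FX, ac_FX]
    split_ifs with he
    · rw [agree a b hab he]
    · rfl
  have aco : ∀ n a, (∀ j ∈ J, a ∉ Ob R (y j) (d j)) →
      (co (FX R y d V S) n a ↔ co (FX R y d V S') n a) := by
    intro n a ha
    rw [co_FX, co_FX, agree a a (fun ⟨j, hj, h, _⟩ => ha j hj h) rfl]
  have nl : ∀ {a b : ℕ}, (∀ j ∈ J, a ∉ Ob R (y j) (d j)) →
      ¬ ∃ j ∈ J, a ∈ Ob R (y j) (d j) ∧ b ∈ Ob R (y j) (d j) :=
    fun ha ⟨j, hj, h, _⟩ => ha j hj h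
  have nr : ∀ {a b : ℕ}, (∀ j ∈ J, b ∉ Ob R (y j) (d j)) →
      ¬ ∃ j ∈ J, a ∈ Ob R (y j) (d j) ∧ b ∈ Ob R (y j) (d j) :=
    fun hb ⟨j, hj, _, h⟩ => hb j hj h
  have invO : ∀ (S : Set ℕ) (n a b k : ℕ), ac (FX R y d V S) n a b →
      (a ∈ Ob R (y k) (d k) ↔ b ∈ Ob R (y k) (d k)) := by
    intro S n a b k h
    rw [← idx_iff hdis, ← idx_iff hdis, inv_FX hdis hinv S h]
  -- (L)
  have hL : ∀ z, (∀ j ∈ J, z ∉ Ob R (y j) (d j)) → ∀ γ : Γ,
      (lt (FX R y d V S) (t γ u) z ↔ lt (FX R y d V S') (t' γ u) z) := by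
    intro z hz γ
    obtain ⟨n, hn⟩ := hg γ
    have e1 : ac (FX R y d V S) n u (t γ u) := (la_ac ht _ _ _).2 (by rw [hn])
    have e2 : ac (FX R y d V S') n u (t' γ u) := (la_ac ht' _ _ _).2 (by rw [hn])
    by_cases hu : ∀ j ∈ J, u ∉ Ob R (y j) (d j)
    · have e3 : t γ u = t' γ u := by
        have e4 := (aac n u _ (nl hu)).1 e1
        rw [la_ac ht', hn] at e4
        exact e4.symm
      rw [e3]
      exact alt _ _ (nr hz)
    · push Not at hu
      obtain ⟨j, hj, huj⟩ := hu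
      have p1 : t γ u ∈ Ob R (y j) (d j) := (invO S n _ _ j e1).1 huj
      have p2 : t' γ u ∈ Ob R (y j) (d j) := (invO S' n _ _ j e2).1 huj
      have hyj : ∀ k, y j ∉ Ob R (y k) (d k) := fun k => hout j k
      have key : ∀ (S : Set ℕ) (s : Γ → ℕ → ℕ), LA g ⊤ (FX R y d V S) s → ∀ δ : Γ,
          (lt R (t0 δ (y j)) (s γ u) ↔ lt R (t0 (γ⁻¹ * δ) (y j)) u) := by
        intro S s hs δ
        obtain ⟨q1, q2⟩ := lab_out hdis hinv hg S h0 hs hyj δ
        obtain ⟨q3, q4⟩ := lab_out hdis hinv hg S h0 hs hyj (γ⁻¹ * δ)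
        rw [← lt_FX_none (V := V) S (s γ u) (idx_none hdis q2),
          ← lt_FX_none (V := V) S u (idx_none hdis q4), ← q1, ← q3, la_mul hs,
          ← la_lt hs γ (s γ⁻¹ (s δ (y j))) u, la_inv' hs]
      have hsl : sl R (y j) (t γ u) (t' γ u) := by
        rw [sl_iff hg h0]
        intro δ
        refine ⟨(key S t ht δ).trans (key S' t' ht' δ).symm, ?_⟩
        have q2 := (lab_out hdis hinv hg S h0 ht hyj δ).2 j
        constructor
        · intro h
          rw [h] at q2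
          exact absurd p1 q2
        · intro h
          rw [h] at q2
          exact absurd p2 q2
      have h5 := (g5 (y j) (d j) _ p1 _ p2 hsl z (hz j hj)).1
      have n1 : idx R y d (t γ u) ≠ idx R y d z := by
        rw [(idx_iff hdis _ j).2 p1]
        intro h
        exact hz j hj ((idx_iff hdis _ j).1 h.symm)
      have n2 : idx R y d (t' γ u) ≠ idx R y d z := by
        rw [(idx_iff hdis _ j).2 p2]
        intro h
        exact hz j hj ((idx_iff hdis _ j).1 h.symm)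
      rw [lt_FX_ne S n1, lt_FX_ne S' n2]
      exact h5
  have hQ : ∀ z, (∀ j ∈ J, z ∉ Ob R (y j) (d j)) → ∀ m,
      (Q (FX R y d V S) u m z ↔ Q (FX R y d V S') u m z) := by
    intro z hz m
    obtain ⟨k, rfl | rfl⟩ : ∃ k, m = 2 * k ∨ m = 2 * k + 1 := ⟨m / 2, by omega⟩
    · rw [Q_even_iff ht, Q_even_iff ht']
      exact hL z hz (g k)
    · rw [Q_odd, Q_odd]
      exact aac k u z (nr hz)
  have hsl : ∀ z w, (∀ j ∈ J, z ∉ Ob R (y j) (d j)) → (∀ j ∈ J, w ∉ Ob R (y j) (d j)) →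
      (sl (FX R y d V S) u z w ↔ sl (FX R y d V S') u z w) := by
    intro z w hz hw
    unfold sl
    exact forall_congr' fun m => by rw [hQ z hz m, hQ w hw m]
  have horb : ∀ n z, ac (FX R y d V S) n v z → ∀ j ∈ J, z ∉ Ob R (y j) (d j) :=
    fun n z h j hj hz => hv j hj ((invO S n v z j h).2 hz)
  have horb' : ∀ n z, ac (FX R y d V S') n v z → ∀ j ∈ J, z ∉ Ob R (y j) (d j) :=
    fun n z h j hj hz => hv j hj ((invO S' n v z j h).2 hz)
  have hOb : Ob (FX R y d V S) u v = Ob (FX R y d V S') u v := by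
    ext x
    constructor
    · rintro ⟨n, m, z, w, e1, e2, e3, e4, e5⟩
      have hz := horb n z e1
      have hw := horb m w e2
      refine ⟨n, m, z, w, (aac n v z (nl hv)).1 e1, (aac m v w (nl hv)).1 e2,
        fun h => e3 ((alt x z (nr hz)).2 h), fun h => e4 ((alt w x (nl hw)).2 h),
        (hsl z w hz hw).1 e5⟩
    · rintro ⟨n, m, z, w, e1, e2, e3, e4, e5⟩
      have hz := horb' n z e1
      have hw := horb' m w e2
      refine ⟨n, m, z, w, (aac n v z (nl hv)).2 e1, (aac m v w (nl hv)).2 e2,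
        fun h => e3 ((alt x z (nr hz)).1 h), fun h => e4 ((alt w x (nl hw)).1 h),
        (hsl z w hz hw).2 e5⟩
  refine ⟨hOb, fun hd => ?_⟩
  rw [← hOb]
  obtain ⟨A, hA⟩ : ∃ A, A = Ob (FX R y d V S) u v := ⟨_, rfl⟩
  rw [← hA] at hd ⊢
  have hAJ : ∀ a ∈ A, ∀ j ∈ J, a ∉ Ob R (y j) (d j) := fun a ha j hj =>
    Set.disjoint_left.1 (hd j hj) ha
  refine ⟨idOn A, Set.empty_subset _, ?_, ?_, fun x hx => ⟨x, rfl, hx⟩, fun x hx => ⟨x, rfl, hx⟩⟩
  · rintro ⟨a, b⟩ ⟨h, h'⟩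
    simp only at h h'
    subst h
    exact ⟨h', h'⟩
  · unfold lb
    rw [piso_ex, piso_iff]
    refine ⟨⟨?_, ?_, ?_, ?_⟩, ?_⟩
    · rintro ⟨a, a'⟩ ⟨ha, ha'⟩ ⟨b, b'⟩ ⟨hb, hb'⟩
      simp only at ha hb
      subst ha hb
      rfl
    · rintro ⟨a, a'⟩ ⟨ha, ha'⟩ ⟨b, b'⟩ ⟨hb, hb'⟩
      simp only at ha hb ha' hb'
      subst ha hb
      exact alt a b (nl (hAJ a ha'))
    · rintro n ⟨a, a'⟩ ⟨ha, ha'⟩ ⟨b, b'⟩ ⟨hb, hb'⟩
      simp only at ha hb ha' hb'
      subst ha hb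
      exact aac n a b (nl (hAJ a ha'))
    · rintro n ⟨a, a'⟩ ⟨ha, ha'⟩
      simp only at ha ha'
      subst ha
      exact aco n a (hAJ a ha')
    · rintro k ⟨a, a'⟩ ⟨ha, ha'⟩
      simp only at ha ha'
      subst ha
      exact hQ a (hAJ a ha') k

end Pool.Agent.Y914.TG
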