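import Pool.Agent.Y560.TG.Stm

/-!
Project TG, job SEQ (helper914): a sequence of variations with new isomorphism types.
-/

set_option autoImplicit false

namespace Pool.Agent.Y914.TG

open Set MeasureTheory
open Pool.Agent.Y560.TG
open Pool.Agent.H899R2.VP (St Adj PIso BF IsoOn idOn inv comp zipSet)
open Pool.Agent.H533R2.VO (RS lift put OS Ic RIso Dich VC BlkV S_FINAL)
open Pool.Agent.H566P (ar R2 v2 a0 a1 lt ac co mk LA LL MB lab sh prec pull S_ACC S_MSG)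

/-- recursion over all smaller numbers -/
noncomputable def seqRec {A : Type} (b : A) (c : (ℕ → A) → ℕ → A) : ℕ → A
  | s => c (fun s' => if _h : s' < s then seqRec b c s' else b) s
termination_by s => s

theorem exists_seq {A : Type} (b : A) (P : (ℕ → A) → ℕ → A → Prop)
    (hP : ∀ f f' s a, (∀ s' < s, f s' = f' s') → P f s a → P f' s a)
    (hex : ∀ f s, ∃ a, P f s a) : ∃ f : ℕ → A, ∀ s, P f s (f s) := by
  choose c hc using hex
  refine ⟨seqRec b c, fun s => ?_⟩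
  have h1 := hc (fun s' => if _h : s' < s then seqRec b c s' else b) s
  have h2 : seqRec b c s = c (fun s' => if _h : s' < s then seqRec b c s' else b) s := by
    rw [seqRec]
  rw [h2]
  refine hP _ _ s _ ?_ h1
  intro s' hs'
  simp only [hs', dif_pos]

theorem pick_congr {R : R2} {V V' : ℕ → R2} {S : Set ℕ} {s : ℕ} (hS : ∀ s' ∈ S, s' < s)
    (h : ∀ s' < s, V s' = V' s') : pick R V S = pick R V' S := by
  funext o
  cases o with
  | none => rfl
  | some k =>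
    simp only [pick]
    split_ifs with h1 h2
    · exact h _ (hS _ h1)
    · exact h _ (hS _ h2)
    · rfl

theorem FX_congr {R : R2} {y d : ℕ → ℕ} {V V' : ℕ → R2} {S : Set ℕ} {s : ℕ}
    (hS : ∀ s' ∈ S, s' < s) (h : ∀ s' < s, V s' = V' s') : FX R y d V S = FX R y d V' S := by
  unfold FX
  rw [pick_congr hS h]

/-- the condition on the next variation -/
def Nx (α : Ordinal.{0}) (R : R2) (y d : ℕ → ℕ) (V : ℕ → R2) (s : ℕ) (W : R2) : Prop :=
  Off (Ob R (y (s / 2)) (d (s / 2))) R W ∧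
  BF (lift (lb R (y (s / 2)))) (lift (lb W (y (s / 2))))
    (Ob R (y (s / 2)) (d (s / 2))) (Ob R (y (s / 2)) (d (s / 2))) α ∅ ∧
  ∀ S : Set ℕ, (∀ s' ∈ S, s' < s) → ∀ u v,
    ¬ IsoOn (lift (lb (FX R y d V S) u)) (lift (lb W (y (s / 2))))
      (Ob (FX R y d V S) u v) (Ob R (y (s / 2)) (d (s / 2))) ∅

theorem step (hF : S_FILL) (hG : S_GEO) (hO : S_OFF) (Γ : Type) [Group Γ] (g : ℕ → Γ)
    (hg : Function.Surjective g) (α : Ordinal.{0}) (R : R2) (y d : ℕ → ℕ) (hmb : MB g ⊤ R)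
    (hα : Ordinal.omega0 ≤ α) (hout : ∀ j k, y j ∉ Ob R (y k) (d k))
    (hbig : ∀ k, ¬ Sm α (lb R (y k)) (Ob R (y k) (d k))) (V : ℕ → R2) (s : ℕ) :
    ∃ W, Nx α R y d V s W := by
  by_contra hcon
  obtain ⟨k, hk⟩ : ∃ k, k = s / 2 := ⟨_, rfl⟩
  have hall : ∀ W : R2, Off (Ob R (y k) (d k)) R W →
      BF (lift (lb R (y k))) (lift (lb W (y k))) (Ob R (y k) (d k)) (Ob R (y k) (d k)) α ∅ →
      ∃ S : Set ℕ, (∀ s' ∈ S, s' < s) ∧ ∃ u v,
        IsoOn (lift (lb (FX R y d V S) u)) (lift (lb W (y k)))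
          (Ob (FX R y d V S) u v) (Ob R (y k) (d k)) ∅ := by
    intro W h1 h2
    by_contra h3
    push Not at h3
    apply hcon
    refine ⟨W, ?_⟩
    unfold Nx
    rw [← hk]
    exact ⟨h1, h2, h3⟩
  obtain ⟨-, -, g3, -, -, g6, -, -, g9, -⟩ := hG Γ g hg R hmb
  have horb : ¬ orb R (y k) (d k) := fun h => hout k k ((g9 (y k) (d k)).1.2 h)
  have hmod := g6 (y k) (d k) horb
  obtain ⟨e, he⟩ := exists_surjective_nat (Finset ℕ × ℕ × ℕ)
  apply hbig k
  refine ⟨fun n => (lb (FX R y d V ((e n).1 : Set ℕ)) (e n).2.1,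
    Ob (FX R y d V ((e n).1 : Set ℕ)) (e n).2.1 (e n).2.2), fun N Y hNY => ?_⟩
  obtain ⟨W, hW1, hW2, hW3, hW4⟩ := hF Γ g hg R N (Ob R (y k) (d k)) Y (Q R (y k)) α hmb hmod hα hNY
  have hQ : Q W (y k) = Q R (y k) := by
    funext m v
    exact propext ((hO Γ g hg R W (Ob R (y k) (d k)) hmb (fun n x z h => g3 n _ _ x z h) hW1).1
      (y k) v m (hout k k))
  have hlb : ex (Q R (y k)) W = lb W (y k) := by
    unfold lb
    rw [hQ]
  rw [hlb] at hW3 hW4
  obtain ⟨S, hS, u, v, huv⟩ := hall W hW1 hW4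
  have hfin : S.Finite := (Set.finite_lt_nat s).subset fun s' hs' => hS s' hs'
  obtain ⟨n, hn⟩ := he (hfin.toFinset, u, v)
  refine ⟨n, ?_⟩
  simp only [hn, Set.Finite.coe_toFinset]
  exact iso_trans0 huv (iso_symm0 hW3)

/-- SEQ -/
theorem t_SEQ (hF : S_FILL) (hG : S_GEO) (hO : S_OFF) : S_SEQ := by
  intro Γ _ g hg α R y d hmb hα hout hdis hbig
  obtain ⟨V, hV⟩ := exists_seq R (Nx α R y d) (by
    rintro f f' s W hff ⟨h1, h2, h3⟩
    refine ⟨h1, h2, fun S hS u v => ?_⟩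
    rw [← FX_congr hS hff]
    exact h3 S hS u v) (step hF hG hO Γ g hg α R y d hmb hα hout hbig)
  refine ⟨V, ⟨hmb, hα, hout, hdis, fun s => (hV s).1, fun s => (hV s).2.1⟩, ?_⟩
  intro s S hS u v
  exact (hV s).2.2 S hS u v

end Pool.Agent.Y914.TG
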